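import Pool.Agent.Q189.IB.Stm2

/-!
# Project IB, job GAM: products of Gamma values as products of beta integrals
-/

set_option autoImplicit false

open MeasureTheory Set Filter Topology

namespace Pool.Agent.Q238.IB

open Pool.Agent.Q189.IB

/-- the real integrand as the real part of the complex one -/
lemma integrand_eq (r s t : ℝ) (h : t ∈ Icc (0 : ℝ) 1) :
    ((t : ℂ) ^ ((r : ℂ) - 1) * (1 - (t : ℂ)) ^ ((s : ℂ) - 1)) =
      ((t ^ (r - 1) * (1 - t) ^ (s - 1) : ℝ) : ℂ) := by
  have h1 : (0 : ℝ) ≤ 1 - t := by linarith [h.2]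
  push_cast
  rw [Complex.ofReal_cpow h.1, Complex.ofReal_cpow h1]
  push_cast
  rfl

lemma int_beta (r s : ℝ) (hr : 0 < r) (hs : 0 < s) :
    IntervalIntegrable (fun t : ℝ => t ^ (r - 1) * (1 - t) ^ (s - 1)) volume 0 1 := by
  have h := Complex.betaIntegral_convergent (u := (r : ℂ)) (v := (s : ℂ)) (by simpa) (by simpa)
  have h2 : IntervalIntegrable (fun t : ℝ =>
      (((t : ℂ) ^ ((r : ℂ) - 1) * (1 - (t : ℂ)) ^ ((s : ℂ) - 1)) : ℂ).re) volume 0 1 := by
    rw [intervalIntegrable_iff] at h ⊢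
    exact h.re
  refine h2.congr fun t ht => ?_
  rw [uIoc_of_le zero_le_one] at ht
  show ((t : ℂ) ^ ((r : ℂ) - 1) * (1 - (t : ℂ)) ^ ((s : ℂ) - 1)).re = t ^ (r - 1) * (1 - t) ^ (s - 1)
  rw [integrand_eq r s t ⟨ht.1.le, ht.2⟩, Complex.ofReal_re]

lemma inc_one_complex (r s : ℝ) : ((inc r s 1 : ℝ) : ℂ) = Complex.betaIntegral r s := by
  unfold inc Complex.betaIntegral
  rw [← intervalIntegral.integral_ofReal]
  refine intervalIntegral.integral_congr fun t ht => ?_
  rw [uIcc_of_le zero_le_one] at ht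
  exact (integrand_eq r s t ht).symm

lemma inc_one (r s : ℝ) (hr : 0 < r) (hs : 0 < s) :
    Real.Gamma r * Real.Gamma s = Real.Gamma (r + s) * inc r s 1 := by
  have h := Complex.Gamma_mul_Gamma_eq_betaIntegral (s := (r : ℂ)) (t := (s : ℂ)) (by simpa)
    (by simpa)
  rw [← inc_one_complex, ← Complex.ofReal_add, Complex.Gamma_ofReal, Complex.Gamma_ofReal,
    Complex.Gamma_ofReal] at h
  exact_mod_cast h

lemma inc_one_pos (r s : ℝ) (hr : 0 < r) (hs : 0 < s) : 0 < inc r s 1 := by
  have h := inc_one r s hr hs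
  have h1 := mul_pos (Real.Gamma_pos_of_pos hr) (Real.Gamma_pos_of_pos hs)
  rw [h] at h1
  exact pos_of_mul_pos_right h1 (Real.Gamma_pos_of_pos (add_pos hr hs)).le

lemma inc_split (r s x : ℝ) (hr : 0 < r) (hs : 0 < s) (hx : 0 < x) (hx1 : x < 1) :
    inc r s 1 = inc r s x + inc s r (1 - x) := by
  have hI := int_beta r s hr hs
  have e1 : inc s r (1 - x) = ∫ t in x..1, t ^ (r - 1) * (1 - t) ^ (s - 1) := by
    have := intervalIntegral.integral_comp_sub_left
      (fun t : ℝ => t ^ (r - 1) * (1 - t) ^ (s - 1)) (a := 0) (b := 1 - x) 1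
    rw [sub_sub_cancel, sub_zero] at this
    rw [← this]
    unfold inc
    refine intervalIntegral.integral_congr fun t _ => ?_
    show t ^ (s - 1) * (1 - t) ^ (r - 1) = (1 - t) ^ (r - 1) * (1 - (1 - t)) ^ (s - 1)
    rw [sub_sub_cancel, mul_comm]
  rw [e1]
  unfold inc
  refine (intervalIntegral.integral_add_adjacent_intervals ?_ ?_).symm
  · exact hI.mono_set (by rw [uIcc_of_le hx.le, uIcc_of_le zero_le_one]; exact Icc_subset_Icc_right hx1.le)
  · exact hI.mono_set (by rw [uIcc_of_le hx1.le, uIcc_of_le zero_le_one]; exact Icc_subset_Icc_left hx.le)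

lemma gam_prod (k : ℕ) : ∀ a : Fin (k + 1) → ℝ, (∀ j, 0 < a j) →
    ∏ j, Real.Gamma (a j) =
      (∏ j : Fin k, inc (a j.castSucc) (∑ i : Fin (k + 1), if j.castSucc < i then a i else 0) 1) *
      Real.Gamma (∑ j, a j) := by
  induction k with
  | zero =>
    intro a _
    simp
  | succ k ih =>
    intro a ha
    have hb := ih (fun j => a j.succ) fun j => ha _
    rw [Fin.prod_univ_succ, hb, Fin.prod_univ_succ (n := k)]
    -- the first factor
    have e0 : (∑ i : Fin (k + 1 + 1), if (0 : Fin (k + 1)).castSucc < i then a i else 0) =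
        ∑ j : Fin (k + 1), a j.succ := by
      rw [Fin.sum_univ_succ]
      have : ¬ ((0 : Fin (k + 1)).castSucc < (0 : Fin (k + 1 + 1))) := by simp
      rw [if_neg this, zero_add]
      refine Finset.sum_congr rfl fun j _ => ?_
      rw [if_pos]
      simp
    have e1 : ∀ j : Fin k, (∑ i : Fin (k + 1 + 1), if (j.succ).castSucc < i then a i else 0) =
        ∑ i : Fin (k + 1), if j.castSucc < i then a i.succ else 0 := by
      intro j
      rw [Fin.sum_univ_succ]
      have : ¬ ((j.succ).castSucc < (0 : Fin (k + 1 + 1))) := by simp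
      rw [if_neg this, zero_add]
      refine Finset.sum_congr rfl fun i _ => ?_
      have hiff : ((j.succ).castSucc < i.succ) ↔ (j.castSucc < i) := by
        rw [← Fin.succ_castSucc, Fin.succ_lt_succ_iff]
      simp only [hiff]
    rw [e0]
    simp only [e1]
    have hS : 0 < ∑ j : Fin (k + 1), a j.succ :=
      Finset.sum_pos (fun j _ => ha _) Finset.univ_nonempty
    have hG := inc_one (a 0) (∑ j : Fin (k + 1), a j.succ) (ha 0) hS
    have hsum : ∑ j, a j = a 0 + ∑ j : Fin (k + 1), a j.succ := Fin.sum_univ_succ a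
    rw [hsum]
    have hc : (0 : Fin (k + 1)).castSucc = (0 : Fin (k + 1 + 1)) := rfl
    have hd : ∀ j : Fin k, a (j.succ).castSucc = a (j.castSucc).succ := fun j => by
      rw [Fin.succ_castSucc]
    rw [hc]
    simp only [hd]
    linear_combination (∏ j : Fin k,
      inc (a (j.castSucc).succ) (∑ i : Fin (k + 1), if j.castSucc < i then a i.succ else 0) 1) * hG

theorem gam : S_GAM := ⟨gam_prod, inc_split, inc_one_pos⟩

end Pool.Agent.Q238.IB
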